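import Mathlib
import Pool.Agent.Helper73.SM.Goals

/-!
# Packet BIN of project SM (MP_c307ca_nt): elementary facts on `Ring.choose`.
-/

set_option autoImplicit false

namespace Pool.Agent.Helper57.SM

open Finset Pool.Agent.Helper73.SM

theorem choose_mul_fact (s : ℝ) (n : ℕ) :
    Ring.choose s n * (n.factorial : ℝ) = ∏ i ∈ range n, (s - i) := by
  have h1 : ∀ n : ℕ, (descPochhammer ℤ n).smeval s = ∏ i ∈ range n, (s - i) := by
    intro n
    induction n with
    | zero => simp
    | succ k ih =>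
      rw [prod_range_succ, ← ih, descPochhammer_succ_right, Polynomial.smeval_mul]
      congr 1
      simp [Polynomial.smeval_sub, Polynomial.smeval_natCast]
  rw [Ring.choose_eq_smul, h1, smul_eq_mul]
  have : (n.factorial : ℝ) ≠ 0 := by positivity
  field_simp

theorem choose_succ (s : ℝ) (n : ℕ) :
    Ring.choose s (n + 1) * ((n : ℝ) + 1) = Ring.choose s n * (s - n) := by
  have h1 := choose_mul_fact s n
  have h2 := choose_mul_fact s (n + 1)
  rw [prod_range_succ, ← h1, Nat.factorial_succ] at h2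
  push_cast at h2
  have : (n.factorial : ℝ) ≠ 0 := by positivity
  apply mul_right_cancel₀ this
  linear_combination h2

theorem bin_recu (s : ℝ) (n : ℕ) : Ring.choose ((n : ℝ) + 1 + s) (n + 1) * (n + 1)
    = Ring.choose ((n : ℝ) + s) n * ((n : ℝ) + 1 + s) := by
  have h1 := choose_mul_fact ((n : ℝ) + s) n
  have h2 := choose_mul_fact ((n : ℝ) + 1 + s) (n + 1)
  rw [prod_range_succ'] at h2
  have h3 : ∏ i ∈ range n, ((n : ℝ) + 1 + s - ((i + 1 : ℕ) : ℝ)) = ∏ i ∈ range n, ((n : ℝ) + s - i) := by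
    apply prod_congr rfl
    intro i _
    push_cast
    ring
  rw [h3, ← h1, Nat.factorial_succ] at h2
  push_cast at h2
  have : (n.factorial : ℝ) ≠ 0 := by positivity
  apply mul_right_cancel₀ this
  linear_combination h2

theorem bin_npos (s : ℝ) (n : ℕ) (h1 : -1 < s) : 0 < Ring.choose ((n : ℝ) + s) n := by
  have h2 := choose_mul_fact ((n : ℝ) + s) n
  have h3 : 0 < ∏ i ∈ range n, ((n : ℝ) + s - i) := by
    apply prod_pos
    intro i hi
    have : ((i : ℝ)) + 1 ≤ n := by exact_mod_cast (mem_range.1 hi)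
    linarith
  rw [← h2] at h3
  have : (0 : ℝ) < (n.factorial : ℝ) := by positivity
  exact (pos_iff_pos_of_mul_pos h3).2 this

theorem bin_le1 (ν : ℝ) (i : ℕ) (h0 : 0 ≤ ν) (h1 : ν ≤ 1) : |Ring.choose ν i| ≤ 1 := by
  induction i with
  | zero => simp
  | succ k ih =>
    have h2 := choose_succ ν k
    have h3 : |ν - k| ≤ (k : ℝ) + 1 := by
      have : (0 : ℝ) ≤ k := Nat.cast_nonneg k
      rw [abs_le]; constructor <;> linarith
    have h4 : |Ring.choose ν (k + 1)| * ((k : ℝ) + 1) = |Ring.choose ν k| * |ν - k| := by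
      have : |Ring.choose ν (k + 1) * ((k : ℝ) + 1)| = |Ring.choose ν k * (ν - k)| := by rw [h2]
      rw [abs_mul, abs_mul, abs_of_pos (by positivity : (0 : ℝ) < (k : ℝ) + 1)] at this
      exact this
    have h5 : |Ring.choose ν k| * |ν - k| ≤ 1 * ((k : ℝ) + 1) := by
      apply mul_le_mul ih h3 (abs_nonneg _) zero_le_one
    rw [← h4] at h5
    exact le_of_mul_le_mul_right h5 (by positivity)

theorem bin_pos_le (ν : ℝ) (n j : ℕ) (h0 : 0 ≤ ν) (h1 : ν < 1) (hj : j ≤ n) :
    0 < Ring.choose ((n : ℝ) - ν) j ∧ Ring.choose ((n : ℝ) - ν) j ≤ (n.choose j : ℝ) := by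
  induction j with
  | zero => simp
  | succ k ih =>
    obtain ⟨ih1, ih2⟩ := ih (by omega)
    have h2 := choose_succ ((n : ℝ) - ν) k
    have hk : (k : ℝ) + 1 ≤ n := by exact_mod_cast hj
    have h3 : 0 < (n : ℝ) - ν - k := by linarith
    have h4 : ((n.choose (k + 1) : ℕ) : ℝ) * ((k : ℝ) + 1) = (n.choose k : ℝ) * ((n : ℝ) - k) := by
      have := Nat.choose_succ_right_eq n k
      have h5 : ((n.choose (k + 1) * (k + 1) : ℕ) : ℝ) = ((n.choose k * (n - k) : ℕ) : ℝ) := by
        rw [this]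
      push_cast [Nat.cast_sub (by omega : k ≤ n)] at h5
      exact h5
    have hk1 : (0 : ℝ) < (k : ℝ) + 1 := by positivity
    constructor
    · have : 0 < Ring.choose ((n : ℝ) - ν) (k + 1) * ((k : ℝ) + 1) := by
        rw [h2]; exact mul_pos ih1 h3
      exact (pos_iff_pos_of_mul_pos this).2 hk1
    · apply le_of_mul_le_mul_right _ hk1
      rw [h2, h4]
      apply mul_le_mul ih2 (by linarith) h3.le (by positivity)

theorem bin_hs (ν x : ℝ) (hx : |x| < 1) :
    HasSum (fun m : ℕ => Ring.choose ν m * x ^ m) ((1 + x) ^ ν) := by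
  have h := (Real.one_add_rpow_hasFPowerSeriesOnBall_zero (a := ν)).hasSum (y := x) (by
    simp only [Metric.mem_eball, edist_zero_right]
    rw [← ENNReal.ofReal_one, Real.enorm_eq_ofReal_abs]
    exact (ENNReal.ofReal_lt_ofReal_iff zero_lt_one).2 hx)
  rw [zero_add] at h
  have h2 : (fun m : ℕ => Ring.choose ν m * x ^ m)
      = fun n : ℕ => ((binomialSeries ℝ ν) n) (fun _ : Fin n => x) := by
    funext m
    rw [binomialSeries, FormalMultilinearSeries.ofScalars_apply_eq, smul_eq_mul]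
  rw [h2]
  exact h

theorem goalBIN : StmtBIN where
  hs := bin_hs
  le1 := bin_le1
  pos := fun ν n j h0 h1 hj => (bin_pos_le ν n j h0 h1 hj).1
  le := fun ν n j h0 h1 hj => (bin_pos_le ν n j h0 h1 hj).2
  recu := bin_recu
  npos := fun s n h1 _ => bin_npos s n h1

end Pool.Agent.Helper57.SM
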