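import Mathlib
import Pool.Agent.Helper73.SM.Goals
import Pool.Agent.Helper95.Div.RothCor

/-!
# Packet A1 of project SM (MP_c307ca_nt): part (a) for `|ξ| ≤ 2`, from the transfer theorem G and Roth's theorem.
-/

set_option autoImplicit false

namespace Pool.Agent.Helper57.SM

open Finset hiding box
open Pool.Agent.Helper73.SM Filter

theorem bad_mono {ε c Q R R' ξ : ℝ} {g : Mat} (h : R ≤ R') (hb : bad ε c Q R ξ g) : bad ε c Q R' ξ g := by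
  obtain ⟨p, q, h1, h2, h3⟩ := hb
  exact ⟨p, q, h1, h2.trans h, h3⟩

theorem roth_ab {ξ δ : ℝ} (hξ : IsAlgebraic ℚ ξ) (hirr : Irrational ξ) (hδ : 0 < δ) :
    ∃ c₀ : ℝ, 0 < c₀ ∧ ∀ a b : ℤ, a ≠ 0 → c₀ ≤ |(a : ℝ) * ξ + b| * |(a : ℝ)| ^ (1 + δ) := by
  obtain ⟨c₀, hc, h⟩ := Pool.Agent.Helper95.Div.roth_low hξ hirr hδ
  refine ⟨c₀, hc, ?_⟩
  intro a b ha
  have hn : 1 ≤ a.natAbs := Int.natAbs_pos.2 ha
  have hcast : ((a.natAbs : ℕ) : ℝ) = |(a : ℝ)| := by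
    rw [Nat.cast_natAbs, Int.cast_abs]
  have hpos : 0 < |(a : ℝ)| := abs_pos.2 (by exact_mod_cast ha)
  have hpw : 0 < |(a : ℝ)| ^ (1 + δ) := Real.rpow_pos_of_pos hpos _
  rcases lt_or_gt_of_ne ha with h0 | h0
  · have h1 := h a.natAbs b hn
    rw [hcast, div_le_iff₀ hpw] at h1
    have h2 : |(a : ℝ)| = -(a : ℝ) := abs_of_neg (by exact_mod_cast h0)
    have h3 : |(|(a : ℝ)| * ξ - b)| = |(a : ℝ) * ξ + b| := by
      rw [h2, ← abs_neg]; congr 1; ring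
    rw [h3] at h1
    exact h1
  · have h1 := h a.natAbs (-b) hn
    rw [hcast, div_le_iff₀ hpw] at h1
    have h2 : |(a : ℝ)| = (a : ℝ) := abs_of_pos (by exact_mod_cast h0)
    have h3 : |(|(a : ℝ)| * ξ - ((-b : ℤ) : ℝ))| = |(a : ℝ) * ξ + b| := by
      rw [h2]; congr 1; push_cast; ring
    rw [h3] at h1
    exact h1

theorem goalA1 (hG : StmtG) : StmtA1 := by
  classical
  intro ε hε
  obtain ⟨C, H₀, hC, h⟩ := hG ε hε
  refine ⟨C, hC, ?_⟩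
  intro ξ hξ hirr hξ2 A
  have hA : 0 ≤ |A| := abs_nonneg A
  have hA1 : 0 < 20 * (|A| + 1) := by positivity
  set δ : ℝ := min (1 / 100) (1 / (20 * (|A| + 1))) with hδdef
  have hδ : 0 < δ := lt_min (by norm_num) (by positivity)
  have hδ1 : δ ≤ 1 / 100 := min_le_left _ _
  have hδ2 : |A| * δ ≤ 1 / 20 := by
    have h1 : δ ≤ 1 / (20 * (|A| + 1)) := min_le_right _ _
    have h2 : |A| * δ ≤ |A| * (1 / (20 * (|A| + 1))) := mul_le_mul_of_nonneg_left h1 hA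
    refine h2.trans ?_
    rw [mul_one_div, div_le_div_iff₀ hA1 (by norm_num)]
    linarith
  obtain ⟨c₀, hc₀, hroth⟩ := roth_ab hξ hirr hδ
  have e1 : ∀ᶠ H : ℕ in atTop, 1 / c₀ ≤ (H : ℝ) ^ (1 / 20 : ℝ) :=
    ((tendsto_rpow_atTop (by norm_num : (0 : ℝ) < 1 / 20)).comp
      tendsto_natCast_atTop_atTop).eventually_ge_atTop (1 / c₀)
  have e2 : ∀ᶠ H : ℕ in atTop, |A| * Real.log H ≤ (H : ℝ) ^ (1 / 20 : ℝ) := by
    have h1 := (isLittleO_log_rpow_atTop (by norm_num : (0 : ℝ) < 1 / 20)).bound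
      (by positivity : 0 < 1 / (|A| + 1))
    have h2 := tendsto_natCast_atTop_atTop (R := ℝ) |>.eventually h1
    filter_upwards [h2, eventually_ge_atTop 1] with H hH hH1
    have hH' : (1 : ℝ) ≤ H := by exact_mod_cast hH1
    have hlog : 0 ≤ Real.log H := Real.log_nonneg hH'
    have hp : 0 < (H : ℝ) ^ (1 / 20 : ℝ) := Real.rpow_pos_of_pos (by linarith) _
    rw [Real.norm_of_nonneg hlog, Real.norm_of_nonneg hp.le, one_div, inv_mul_eq_div,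
      le_div_iff₀ (by positivity)] at hH
    nlinarith
  have e3 : ∀ᶠ H : ℕ in atTop, H₀ ≤ (H : ℝ) :=
    tendsto_natCast_atTop_atTop.eventually_ge_atTop H₀
  have e4 := ((e1.and e2).and e3).and (eventually_ge_atTop 1)
  obtain ⟨N, hN⟩ := eventually_atTop.1 e4
  refine ⟨N, ?_⟩
  intro H hH c Q hc hQ
  obtain ⟨⟨⟨k1, k2⟩, k3⟩, k4⟩ := hN H hH
  have hH1 : (1 : ℝ) ≤ H := by exact_mod_cast k4
  have hH0 : (0 : ℝ) < H := by linarith
  have hR1 : (1 : ℝ) ≤ max 1 ((H : ℝ) ^ A) := le_max_left _ _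
  have hRle : max 1 ((H : ℝ) ^ A) ≤ (H : ℝ) ^ |A| := by
    apply max_le
    · exact Real.one_le_rpow hH1 hA
    · exact Real.rpow_le_rpow_of_exponent_le hH1 (le_abs_self A)
  have g1 : (max 1 ((H : ℝ) ^ A)) ^ δ ≤ (H : ℝ) ^ (1 / 20 : ℝ) := by
    refine (Real.rpow_le_rpow (by linarith) hRle hδ.le).trans ?_
    rw [← Real.rpow_mul hH0.le]
    exact Real.rpow_le_rpow_of_exponent_le hH1 hδ2
  have g2 : 1 ≤ c₀ * (H : ℝ) ^ (1 / 20 : ℝ) := by
    rw [div_le_iff₀ hc₀] at k1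
    linarith
  have g3 : Real.log (max 1 ((H : ℝ) ^ A)) ≤ (H : ℝ) ^ (1 / 20 : ℝ) := by
    refine (Real.log_le_log (by linarith) hRle).trans ?_
    rw [Real.log_rpow hH0]
    exact k2
  have key := h ξ hirr hξ2 δ c₀ hδ.le hδ1 hc₀ hroth H (max 1 ((H : ℝ) ^ A)) k3 hR1 g1 g2 g3 c Q hc hQ
  refine le_trans ?_ key
  apply Nat.cast_le.2
  apply card_le_card
  intro g hg
  rw [mem_filter] at hg ⊢
  exact ⟨hg.1, bad_mono (le_max_right _ _) hg.2⟩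

end Pool.Agent.Helper57.SM
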