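import Mathlib
import Pool.Agent.Helper73.SM.Goals

/-!
# Packet A2 of project SM (MP_c307ca_nt): part (a), from A1.
-/

set_option autoImplicit false

namespace Pool.Agent.Helper57.SM

open Finset hiding box
open Pool.Agent.Helper73.SM

/-- exchange of the two columns -/
def swp (g : Mat) : Mat := ((g.1.2, g.1.1), (g.2.2, g.2.1))

theorem swp_inj : Function.Injective swp := by
  intro g g' h
  obtain ⟨⟨a, b⟩, c, d⟩ := g
  obtain ⟨⟨a', b'⟩, c', d'⟩ := g'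
  simp only [swp, Prod.mk.injEq] at h ⊢
  exact ⟨⟨h.1.2, h.1.1⟩, h.2.2, h.2.1⟩

theorem swp_mem (H : ℕ) (g : Mat) (h : g ∈ box H) : swp g ∈ box H := by
  simp only [box, mem_product] at h ⊢
  exact ⟨⟨h.1.2, h.1.1⟩, h.2.2, h.2.1⟩

theorem lf_swp (ξ : ℝ) (h0 : ξ ≠ 0) (a b : ℤ) : lf ξ (a, b) = ξ * lf ξ⁻¹ (b, a) := by
  simp only [lf]
  field_simp
  ring

theorem quot_swp (ξ : ℝ) (h0 : ξ ≠ 0) (g : Mat) :
    lf ξ⁻¹ (swp g).1 / lf ξ⁻¹ (swp g).2 = lf ξ g.1 / lf ξ g.2 := by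
  obtain ⟨⟨a, b⟩, c, d⟩ := g
  simp only [swp]
  rw [lf_swp ξ h0 a b, lf_swp ξ h0 c d, mul_div_mul_left _ _ h0]

theorem goalA2 (hA1 : StmtA1) : StmtA2 := by
  classical
  intro ε hε
  obtain ⟨C, hC, h⟩ := hA1 ε hε
  refine ⟨C, hC, ?_⟩
  intro ξ hξ hirr A
  by_cases h2 : |ξ| ≤ 2
  · exact h ξ hξ hirr h2 A
  have h0 : ξ ≠ 0 := hirr.ne_zero
  have h3 : |ξ⁻¹| ≤ 2 := by
    rw [abs_inv]
    have : (1 : ℝ) ≤ |ξ| := by linarith [not_le.1 h2]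
    exact (inv_le_one_of_one_le₀ this).trans (by norm_num)
  obtain ⟨H₀, hH₀⟩ := h ξ⁻¹ hξ.inv hirr.inv h3 A
  refine ⟨H₀, ?_⟩
  intro H hH c Q hc hQ
  refine le_trans ?_ (hH₀ H hH c Q hc hQ)
  apply Nat.cast_le.2
  apply card_le_card_of_injOn swp
  · intro g hg
    have hg' := mem_filter.1 (mem_coe.1 hg)
    apply mem_coe.2
    apply mem_filter.2
    refine ⟨swp_mem H g hg'.1, ?_⟩
    obtain ⟨p, q, k1, k2, k3⟩ := hg'.2
    refine ⟨p, q, k1, k2, ?_⟩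
    rw [quot_swp ξ h0 g]
    exact k3
  · exact swp_inj.injOn

end Pool.Agent.Helper57.SM
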