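import Pool.Agent.Helper52.SM.Goals
import Pool.Agent.Helper78.DT.Av

/-!
# SM-STM: one step of the search
-/

namespace Pool.Agent.Helper57.SM

open Pool.Agent.Helper65.CS Pool.Agent.Helper78.DT Pool.Agent.Helper52.SM
open Pool.Agent.Helper52.SX (Tup tv fract NFT rstT lossT PgtStmt RttStmt)
open Pool.Agent.Helper78

theorem lossT_mono (r W b u0 c1 M n N l : ℕ) (hn : n ≤ N) :
    lossT r W b u0 c1 M n l ≤ lossT r W b u0 c1 M N l := by
  have hn' : (n : ℝ) ≤ N := by exact_mod_cast hn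
  unfold lossT
  have h2 : (2 : ℝ) ^ (r * c1) * ((n : ℝ) / M) ≤ 2 ^ (r * c1) * ((N : ℝ) / M) :=
    mul_le_mul_of_nonneg_left (div_le_div_of_nonneg_right hn' (by positivity)) (by positivity)
  linarith

theorem mem_al {n v : ℕ} {s : List (ℕ × Bool)} :
    v ∈ al n s ↔ v < n ∧ (v, true) ∉ s ∧ (v, false) ∉ s := by
  unfold al
  rw [List.mem_filter, List.mem_range]
  simp

theorem not_mem_of_mem_al {n v : ℕ} {s : List (ℕ × Bool)} (h : v ∈ al n s) (b : Bool) :
    (v, b) ∉ s := by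
  cases b
  · exact (mem_al.mp h).2.2
  · exact (mem_al.mp h).2.1

theorem ov_append {m : ℕ} {e s : List (ℕ × Bool)} (hs : ∀ p ∈ s, p.1 < m)
    (h : ∀ p ∈ e, p.1 ∈ al m s) (y : Fin m → Bool) :
    ov s (PM.coins (ovr e y)) = ov (e ++ s) (PM.coins y) := by
  funext v
  unfold ov ovb
  simp only [List.contains_iff_mem, List.mem_append]
  by_cases hv : v < m
  · have hc1 : PM.coins (ovr e y) v = ovr e y ⟨v, hv⟩ := by
      unfold PM.coins
      rw [dif_pos hv]
    have hc2 : PM.coins y v = y ⟨v, hv⟩ := by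
      unfold PM.coins
      rw [dif_pos hv]
    rw [hc1, hc2]
    unfold ovr
    by_cases h1 : (v, true) ∈ s
    · simp [h1]
    · by_cases h2 : (v, false) ∈ s
      · have h3 : (v, true) ∉ e := fun h4 => not_mem_of_mem_al (h _ h4) false h2
        simp [h1, h2, h3]
      · simp [h1, h2]
  · have hns : ∀ β, (v, β) ∉ s := fun β hβ => hv (hs _ hβ)
    have hne : ∀ β, (v, β) ∉ e := fun β hβ => hv (mem_al.mp (h _ hβ)).1
    have hc1 : PM.coins (ovr e y) v = false := by
      unfold PM.coins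
      rw [dif_neg hv]
    have hc2 : PM.coins y v = false := by
      unfold PM.coins
      rw [dif_neg hv]
    rw [hc1, hc2]
    simp [hns, hne]

theorem pr_le {Ω : Type*} [Fintype Ω] {E F : Ω → Prop} (h : ∀ w, E w → F w) : pr E ≤ pr F := by
  classical
  unfold pr av
  refine div_le_div_of_nonneg_right (Finset.sum_le_sum fun w _ => ?_) (by positivity)
  by_cases hE : E w
  · simp [hE, h w hE]
  · simp only [hE, if_false]
    split_ifs <;> norm_num

theorem fract_eq (n : ℕ) (z : Tup) : fract n z = pr fun y : Fin n → Bool => tv y z = true := by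
  rw [pr_eq_card]
  unfold fract
  simp

theorem step_bound (hT : TupStmt) (hP : PgtStmt) (hR : RttStmt) (hC : CndStmt) (A : PM.Machine)
    (c k : ℕ) (x : List Bool) (N W b u0 c1 M : ℕ) (ε : ℝ) (s : List (ℕ × Bool))
    (hs1 : (s.map Prod.fst).Nodup) (hs2 : ∀ p ∈ s, p.1 < A.m x) (hmN : A.m x ≤ N)
    (hW : 2 * PM.bd c x ≤ W) (hε : 0 < ε)
    (hN : (1 + (A.T x : ℝ) * 2 ^ PM.bd c x) * (1 + A.T x / ε) ≤ N) (hM : 2 ≤ M) (hc1 : 1 ≤ c1)
    (hb : 1 ≤ b) (hNM : (N : ℝ) / M ≤ (1 / 2 ^ b) ^ (c1 + u0))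
    (hloss : lossT (2 * A.r x) W b u0 c1 M N N + A.r x * (√ε * 4 ^ (2 * PM.bd c x)) ≤
      1 / (lg N : ℝ) ^ k) (hne : al (A.m x) s ≠ []) :
    ∃ e ∈ cands b M (A.m x) s, phi A c x s ≤ phi A c x (e ++ s) + 1 / (lg N : ℝ) ^ k := by
  obtain ⟨z, hz1, hz2, hz3, hz4⟩ := hT A c x s ε N hs1 hs2 hε hN
  have hzW : NFT (A.m x) W N z := fun F hF =>
    ⟨fun e he => ⟨((hz1 F hF).1 e he).1, ((hz1 F hF).1 e he).2.1.trans hW, ((hz1 F hF).1 e he).2.2⟩,
      (hz1 F hF).2⟩
  have hnM : (A.m x : ℝ) / M ≤ (1 / 2 ^ b) ^ (c1 + u0) := by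
    refine le_trans (div_le_div_of_nonneg_right ?_ (by positivity)) hNM
    exact_mod_cast hmN
  obtain ⟨e, he, hfe⟩ := hP (A.m x) W N b u0 c1 M s z hzW hM hc1 hb hnM hne
  obtain ⟨hnd, hal, -, -⟩ := (hC b M (A.m x) s).2.2.1 e he
  refine ⟨e, he, ?_⟩
  rw [hz2] at hfe
  have hm := lossT_mono (2 * A.r x) W b u0 c1 M (A.m x) N N hmN
  have h1 : fract (A.m x) (rstT e z) ≤ phi A c x (e ++ s) := by
    rw [fract_eq]
    unfold phi
    refine pr_le fun y hy => ?_
    rw [hR.2 (A.m x) e z y hnd (fun p hp => (mem_al.mp (hal p hp)).1)] at hy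
    have h2 := hz3 (ovr e y) hy
    rwa [ov_append hs2 hal] at h2
  linarith

/-- **Packet STM.** -/
theorem stm (hT : TupStmt) (hP : PgtStmt) (hC : CndStmt) (hA : AlnStmt) (hR : RttStmt) :
    StmStmt := by
  intro A c k g hg x N W b u0 c1 M ε s hs1 hs2 hmN hW hε hN hM hc1 hb hNM hloss
  have hUpos : (0 : ℝ) < (lg N : ℝ) ^ k := by
    have : (0 : ℝ) < (lg N : ℝ) := by
      have h2 : 0 < lg N := by
        unfold lg
        omega
      exact_mod_cast h2
    positivity
  have hg1 := abs_le.1 (hg x s N)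
  rcases hfind : (cands b M (A.m x) s).find?
      (fun e => decide (g (x, s, N) ≤ g (x, e ++ s, N) + 3)) with _ | e
  · -- no candidate
    have hstep : stepM g x b M (A.m x) N s = s := by
      unfold stepM
      rw [hfind]
    rw [hstep]
    have hnone := List.find?_eq_none.1 hfind
    have hal : al (A.m x) s = [] := by
      by_contra hne
      obtain ⟨e, he, hfe⟩ := step_bound hT hP hR hC A c k x N W b u0 c1 M ε s hs1 hs2 hmN hW hε
        hN hM hc1 hb hNM hloss hne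
      have hg2 := abs_le.1 (hg x (e ++ s) N)
      have h3 : (g (x, s, N) : ℝ) / (lg N : ℝ) ^ k ≤
          ((g (x, e ++ s, N) : ℝ) + 3) / (lg N : ℝ) ^ k := by
        have : ((g (x, e ++ s, N) : ℝ) + 3) / (lg N : ℝ) ^ k =
            (g (x, e ++ s, N) : ℝ) / (lg N : ℝ) ^ k + 3 * (1 / (lg N : ℝ) ^ k) := by
          ring
        rw [this]
        linarith [hg1.2, hg2.1]
      have h4 : (g (x, s, N) : ℝ) ≤ (g (x, e ++ s, N) : ℝ) + 3 :=
        (div_le_div_iff_of_pos_right hUpos).1 h3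
      have h5 : g (x, s, N) ≤ g (x, e ++ s, N) + 3 := by exact_mod_cast h4
      have h6 := hnone e he
      simp only [decide_eq_true_eq] at h6
      exact h6 h5
    refine ⟨hs1, hs2, ?_, ?_⟩
    · have : 0 ≤ 5 / (lg N : ℝ) ^ k := by positivity
      linarith
    · rw [hal]
      simp
  · have hstep : stepM g x b M (A.m x) N s = e ++ s := by
      unfold stepM
      rw [hfind]
    rw [hstep]
    have hmem : e ∈ cands b M (A.m x) s := List.mem_of_find?_eq_some hfind
    have hp := List.find?_some hfind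
    simp only [decide_eq_true_eq] at hp
    obtain ⟨hnd, hal, h1, hlen2⟩ := (hC b M (A.m x) s).2.2.1 e hmem
    have hg2 := abs_le.1 (hg x (e ++ s) N)
    refine ⟨?_, ?_, ?_, ?_⟩
    · rw [List.map_append, List.nodup_append]
      refine ⟨hnd, hs1, ?_⟩
      intro a ha b hb hab
      rw [List.mem_map] at ha hb
      obtain ⟨p, hp, rfl⟩ := ha
      obtain ⟨q, hq, rfl⟩ := hb
      exact not_mem_of_mem_al (hal p hp) q.2 (by rw [hab]; exact hq)
    · intro p hp
      rcases List.mem_append.mp hp with h | h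
      · exact (mem_al.mp (hal p h)).1
      · exact hs2 p h
    · have h4 : (g (x, s, N) : ℝ) ≤ (g (x, e ++ s, N) : ℝ) + 3 := by exact_mod_cast hp
      have h5 := div_le_div_of_nonneg_right h4 hUpos.le
      have h6 : ((g (x, e ++ s, N) : ℝ) + 3) / (lg N : ℝ) ^ k =
          (g (x, e ++ s, N) : ℝ) / (lg N : ℝ) ^ k + 3 * (1 / (lg N : ℝ) ^ k) := by
        ring
      have h7 : 5 / (lg N : ℝ) ^ k = 5 * (1 / (lg N : ℝ) ^ k) := by ring
      rw [h7]
      linarith [hg1.1, hg2.2]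
    · have h8 := hA (A.m x) e s hnd hal
      nlinarith

end Pool.Agent.Helper57.SM
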