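import Mathlib
import Pool.Agent.Helper73.SM.GoalsU

/-!
# Project CU (MP_c307ca_nt), packet UC3: the power of `3`
-/

set_option autoImplicit false

namespace Pool.Agent.Helper57.SM

open Finset Pool.Agent.Helper73.SM

theorem cz_three (hUCZ : StmtUCZ) (s : ℤ) (m j : ℕ) (hj : 1 ≤ j) :
    (3 : ℤ) ^ ((j + 1) / 2) ∣ cz s m j := by
  have hp : Fact (Nat.Prime 3) := ⟨Nat.prime_three⟩
  have h1 := sub_one_mul_padicValNat_factorial (p := 3) j
  have h2 : 1 ≤ (Nat.digits 3 j).sum := by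
    by_contra h
    have h0 : (Nat.digits 3 j).sum = 0 := by omega
    have h3 := Nat.modEq_digits_sum 3 3
    have hne : j ≠ 0 := by omega
    have hlast := Nat.getLast_digit_ne_zero 3 hne
    apply hlast
    exact List.sum_eq_zero_iff.1 h0 _ (List.getLast_mem _)
  set v := padicValNat 3 j.factorial with hv
  have h4 : v ≤ (j - 1) / 2 := by omega
  have h5 : (j + 1) / 2 ≤ j - v := by omega
  have h6 : v ≤ j := by omega
  obtain ⟨u, hu⟩ : 3 ^ v ∣ j.factorial := by rw [hv]; exact pow_padicValNat_dvd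
  have hu3 : ¬ 3 ∣ u := by
    rintro ⟨w, rfl⟩
    have : 3 ^ (v + 1) ∣ j.factorial := ⟨w, by rw [hu]; ring⟩
    have h7 := (padicValNat_dvd_iff_le (p := 3) (Nat.factorial_ne_zero j)).1 this
    omega
  have h7 := hUCZ.mul s m j
  rw [hu] at h7
  push_cast at h7
  have h8 : (3 : ℤ) ^ j = 3 ^ v * 3 ^ (j - v) := by rw [← pow_add]; congr 1; omega
  have h9 : (3 : ℤ) ^ v * (cz s m j * (u : ℤ))
      = 3 ^ v * (3 ^ (j - v) * ∏ i ∈ range j, (3 * (m : ℤ) + s - 3 * (i : ℤ))) := by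
    rw [← mul_assoc ((3 : ℤ) ^ v) ((3 : ℤ) ^ (j - v)), ← h8, ← h7]
    ring
  have h10 := mul_left_cancel₀ (pow_ne_zero v (by norm_num : (3 : ℤ) ≠ 0)) h9
  have h11 : (3 : ℤ) ^ (j - v) ∣ cz s m j * (u : ℤ) := ⟨_, h10⟩
  have hc : IsCoprime ((3 : ℤ) ^ (j - v)) (u : ℤ) := by
    refine IsCoprime.pow_left ?_
    have := (Nat.coprime_primes Nat.prime_three Nat.prime_three)
    have h12 : Nat.Coprime 3 u := (Nat.Prime.coprime_iff_not_dvd Nat.prime_three).2 hu3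
    exact_mod_cast Nat.isCoprime_iff_coprime.2 h12
  exact (pow_dvd_pow 3 h5).trans (hc.dvd_of_dvd_mul_right h11)

theorem goalUC3 (hUCZ : StmtUCZ) : StmtUC3 := by
  intro s m N _ hm
  unfold PZ
  apply dvd_sum
  intro j hj
  have hjm : j ≤ m := Nat.lt_succ_iff.1 (mem_range.1 hj)
  have h9 : (3 : ℤ) ^ (2 * (m - j)) ∣ (9 * N) ^ (m - j) := by
    rw [pow_mul]
    apply pow_dvd_pow_of_dvd
    exact ⟨N, by norm_num⟩
  by_cases hj0 : j = 0
  · subst hj0
    have h1 : (3 : ℤ) ^ ((m + 1) / 2) ∣ (9 * N) ^ (m - 0) :=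
      (pow_dvd_pow 3 (by omega)).trans h9
    exact Dvd.dvd.mul_left h1 _
  · have h1 := cz_three hUCZ s m j (by omega)
    have h2 : (3 : ℤ) ^ ((m + 1) / 2) ∣ 3 ^ ((j + 1) / 2) * 3 ^ (2 * (m - j)) := by
      rw [← pow_add]
      exact pow_dvd_pow 3 (by omega)
    refine h2.trans ?_
    rw [mul_assoc]
    exact mul_dvd_mul h1 (Dvd.dvd.mul_left h9 _)

end Pool.Agent.Helper57.SM
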