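import Mathlib
import Pool.Agent.Helper73.SM.GoalsU
import Pool.Agent.Helper57.SM.BIN

/-!
# Project CU (MP_c307ca_nt), packet UCZ
-/

set_option autoImplicit false

namespace Pool.Agent.Helper57.SM

open Finset Pool.Agent.Helper73.SM

theorem cz_mul (hINT : StmtINT) (s : ℤ) (n j : ℕ) : cz s n j * (j.factorial : ℤ)
    = 3 ^ j * ∏ i ∈ range j, (3 * (n : ℤ) + s - 3 * (i : ℤ)) := by
  have h := hINT (3 * (n : ℤ) + s) 3 j
  have e : ∏ i ∈ range j, (3 * (n : ℤ) + s - (i : ℤ) * 3)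
      = ∏ i ∈ range j, (3 * (n : ℤ) + s - 3 * (i : ℤ)) := by
    refine prod_congr rfl fun i _ => ?_
    ring
  rw [e] at h
  unfold cz
  exact Int.ediv_mul_cancel h

theorem cz_cast (hINT : StmtINT) (s : ℤ) (n j : ℕ) :
    (cz s n j : ℝ) = 9 ^ j * Ring.choose ((n : ℝ) + (s : ℝ) / 3) j := by
  have h1 := congrArg (fun z : ℤ => (z : ℝ)) (cz_mul hINT s n j)
  push_cast at h1
  have h2 := choose_mul_fact ((n : ℝ) + (s : ℝ) / 3) j
  have hf : (j.factorial : ℝ) ≠ 0 := by exact_mod_cast j.factorial_ne_zero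
  apply mul_right_cancel₀ hf
  rw [h1, mul_assoc, h2]
  have h9 : (9 : ℝ) ^ j = 3 ^ j * 3 ^ j := by rw [← mul_pow]; norm_num
  rw [h9, mul_assoc]
  congr 1
  have h3 : (3 : ℝ) ^ j = ∏ _i ∈ range j, (3 : ℝ) := by simp
  rw [h3, ← prod_mul_distrib]
  refine prod_congr rfl fun i _ => ?_
  ring

theorem pz_cast (hINT : StmtINT) (s : ℤ) (n N : ℕ) (hN : 1 ≤ N) :
    (PZ s n (N : ℤ) : ℝ) = (9 * (N : ℝ)) ^ n * ∑ j ∈ range (n + 1),
      Ring.choose ((n : ℝ) + (s : ℝ) / 3) j * ((2 * n - j).choose n : ℝ) * (1 / (N : ℝ)) ^ j := by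
  unfold PZ
  push_cast
  rw [mul_sum]
  refine sum_congr rfl fun j hj => ?_
  rw [cz_cast hINT]
  have hN0 : (N : ℝ) ≠ 0 := by
    have : (1 : ℝ) ≤ N := by exact_mod_cast hN
    linarith
  have hjn : j ≤ n := Nat.lt_succ_iff.1 (mem_range.1 hj)
  have h1 : (9 * (N : ℝ)) ^ n = (9 * (N : ℝ)) ^ (n - j) * (9 * (N : ℝ)) ^ j := by
    rw [← pow_add, Nat.sub_add_cancel hjn]
  have h2 : (9 * (N : ℝ)) ^ j * (1 / (N : ℝ)) ^ j = 9 ^ j := by
    rw [← mul_pow]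
    congr 1
    field_simp
  rw [h1]
  calc (9 : ℝ) ^ j * Ring.choose ((n : ℝ) + (s : ℝ) / 3) j * ((2 * n - j).choose n : ℝ)
        * (9 * (N : ℝ)) ^ (n - j)
      = (9 * (N : ℝ)) ^ (n - j) * ((9 * (N : ℝ)) ^ j * (1 / (N : ℝ)) ^ j)
        * (Ring.choose ((n : ℝ) + (s : ℝ) / 3) j * ((2 * n - j).choose n : ℝ)) := by
        rw [h2]; ring
    _ = _ := by ring

theorem goalUCZ (hINT : StmtINT) : StmtUCZ where
  mul := cz_mul hINT
  cast := cz_cast hINT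
  pa := fun n N hN => by
    rw [pz_cast hINT 1 n N hN]
    unfold PA
    push_cast
    rfl
  pb := fun n N hN => by
    rw [pz_cast hINT (-1) n N hN]
    unfold PB
    congr 1
    refine sum_congr rfl fun j _ => ?_
    have : (n : ℝ) + ((-1 : ℤ) : ℝ) / 3 = (n : ℝ) - 1 / 3 := by push_cast; ring
    rw [this]

end Pool.Agent.Helper57.SM
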