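import Mathlib
import Pool.Agent.Helper73.SM.GoalsU

/-!
# Project CU (MP_c307ca_nt), packet UPD: the primes of `PP n` divide `D_n`
-/

set_option autoImplicit false

namespace Pool.Agent.Helper57.SM

open Finset Pool.Agent.Helper73.SM

theorem dvd_cz (hUCZ : StmtUCZ) (s : ℤ) (n p l : ℕ) (hp : p.Prime) (hpn : n < p) (hl : 1 ≤ l)
    (hln : l ≤ n) (h : 3 * (l : ℤ) + s = p) : (p : ℤ) ∣ cz s n n := by
  have h1 := hUCZ.mul s n n
  have h2 : (p : ℤ) ∣ ∏ i ∈ range n, (3 * (n : ℤ) + s - 3 * (i : ℤ)) := by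
    have h3 : (3 * (n : ℤ) + s - 3 * ((n - l : ℕ) : ℤ)) ∣
        ∏ i ∈ range n, (3 * (n : ℤ) + s - 3 * (i : ℤ)) :=
      dvd_prod_of_mem _ (mem_range.2 (by omega))
    have h4 : (3 * (n : ℤ) + s - 3 * ((n - l : ℕ) : ℤ)) = p := by
      rw [Nat.cast_sub hln, ← h]
      ring
    rwa [h4] at h3
  have h3 : (p : ℤ) ∣ cz s n n * (n.factorial : ℤ) := by
    rw [h1]
    exact Dvd.dvd.mul_left h2 _
  have hpp : Prime (p : ℤ) := Nat.prime_iff_prime_int.1 hp
  rcases hpp.dvd_or_dvd h3 with h4 | h4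
  · exact h4
  · exfalso
    have h5 : p ∣ n.factorial := by exact_mod_cast h4
    have := (hp.dvd_factorial).1 h5
    omega

theorem goalUPD (hUCZ : StmtUCZ) (hUDT : StmtUDT) : StmtUPD := by
  intro n p hn hp
  unfold PP at hp
  rw [mem_filter, mem_Ioc] at hp
  obtain ⟨⟨h1, h2⟩, hpr⟩ := hp
  have h3 : n + 1 < p := by omega
  have hpp : Prime (p : ℤ) := Nat.prime_iff_prime_int.1 hpr
  have h4 : (p : ℤ) ∣ cz 1 n n * cz (-1) n n := by
    have hp3 : p % 3 ≠ 0 := by
      intro h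
      have : 3 ∣ p := Nat.dvd_of_mod_eq_zero h
      have := (Nat.prime_dvd_prime_iff_eq Nat.prime_three hpr).1 this
      omega
    by_cases hp1 : p % 3 = 1
    · have := dvd_cz hUCZ 1 n p (p / 3) hpr (by omega) (by omega) (by omega) (by omega)
      exact Dvd.dvd.mul_right this _
    · have hp2 : p % 3 = 2 := by omega
      have := dvd_cz hUCZ (-1) n p ((p + 1) / 3) hpr (by omega) (by omega) (by omega) (by omega)
      exact Dvd.dvd.mul_left this _
  have h5 := hUDT.mul n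
  have h6 : (p : ℤ) ∣ DD n * ((n : ℤ) + 1) := by
    rw [h5, mul_assoc]
    exact Dvd.dvd.mul_left h4 _
  rcases hpp.dvd_or_dvd h6 with h7 | h7
  · exact h7
  · exfalso
    have h8 : p ∣ n + 1 := by exact_mod_cast h7
    have := Nat.le_of_dvd (by omega) h8
    omega

end Pool.Agent.Helper57.SM
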