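import Mathlib
import Pool.Agent.Helper73.SM.GoalsU

/-!
# Project CU (MP_c307ca_nt), packet USM: a convergent series and the size of the primorial
-/

set_option autoImplicit false

namespace Pool.Agent.Helper57.SM

open Finset Pool.Agent.Helper73.SM Filter

theorem usm_summable : Summable (fun n : ℕ => Real.exp (-((n : ℝ) / (100 * Real.log n)))) := by
  have h0 : Summable (fun n : ℕ => 1 / (n : ℝ) ^ 2) :=
    Real.summable_one_div_nat_pow.2 (by norm_num)
  refine Summable.of_norm_bounded_eventually_nat h0 ?_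
  have h1 := (isLittleO_log_rpow_atTop (by norm_num : (0 : ℝ) < 1 / 2)).bound
    (by norm_num : (0 : ℝ) < 1 / 20)
  have h2 := tendsto_natCast_atTop_atTop (R := ℝ) |>.eventually h1
  filter_upwards [h2, eventually_ge_atTop 2] with n hn hn2
  have hnR : (2 : ℝ) ≤ n := by exact_mod_cast hn2
  have hn0 : (0 : ℝ) < n := by linarith
  have hlog : 0 < Real.log n := Real.log_pos (by linarith)
  have hp : 0 < (n : ℝ) ^ (1 / 2 : ℝ) := Real.rpow_pos_of_pos hn0 _
  rw [Real.norm_of_nonneg hlog.le, Real.norm_of_nonneg hp.le] at hn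
  have hsq : ((n : ℝ) ^ (1 / 2 : ℝ)) ^ 2 = n := by
    rw [← Real.rpow_natCast, ← Real.rpow_mul hn0.le]
    norm_num
  have h3 : Real.log n ^ 2 ≤ 1 / 400 * n := by
    have h4 : Real.log n ^ 2 ≤ (1 / 20 * (n : ℝ) ^ (1 / 2 : ℝ)) ^ 2 :=
      pow_le_pow_left₀ hlog.le hn 2
    rw [mul_pow, hsq] at h4
    linarith
  rw [Real.norm_of_nonneg (Real.exp_pos _).le]
  have h5 : 2 * Real.log n ≤ (n : ℝ) / (100 * Real.log n) := by
    rw [le_div_iff₀ (by positivity)]
    nlinarith
  have h6 : 1 / (n : ℝ) ^ 2 = Real.exp (-(2 * Real.log n)) := by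
    rw [Real.exp_neg, two_mul, Real.exp_add, Real.exp_log hn0, one_div, sq]
  rw [h6]
  exact Real.exp_le_exp.2 (by linarith)

theorem goalUSM : StmtUSM where
  tail := by
    intro δ hδ
    have h1 := usm_summable.hasSum.tendsto_sum_nat
    set f : ℕ → ℝ := fun n : ℕ => Real.exp (-((n : ℝ) / (100 * Real.log n))) with hf
    have h2 : ∀ᶠ n : ℕ in atTop, ∑' n, f n - δ < ∑ i ∈ range n, f i :=
      h1.eventually_const_lt (by linarith)
    obtain ⟨n₁, hn₁, hn₂⟩ := (h2.and (eventually_ge_atTop 2)).exists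
    refine ⟨n₁, hn₂, ?_⟩
    intro n₂
    by_cases hle : n₁ ≤ n₂
    · have h3 : ∑ n ∈ Ico n₁ n₂, f n = ∑ i ∈ range n₂, f i - ∑ i ∈ range n₁, f i :=
        sum_Ico_eq_sub _ hle
      have h4 : ∑ i ∈ range n₂, f i ≤ ∑' n, f n :=
        usm_summable.sum_le_tsum _ (fun i _ => (Real.exp_pos _).le)
      change ∑ n ∈ Ico n₁ n₂, f n ≤ δ
      rw [h3]
      linarith
    · rw [Ico_eq_empty (by omega), sum_empty]
      exact hδ.le
  prim := by
    intro X N n hX hN h72
    have h1 : ∏ p ∈ PP n, p ≤ primorial (3 * n + 1) := by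
      unfold primorial PP
      apply prod_le_prod_of_subset_of_one_le'
      · intro p hp
        rw [mem_filter, mem_Ioc] at hp
        rw [mem_filter, mem_range]
        exact ⟨by omega, hp.2⟩
      · intro p hp _
        exact (mem_filter.1 hp).2.one_lt.le
    have h2 := primorial_le_four_pow (3 * n + 1)
    refine (h1.trans h2).trans ?_
    have h3 : (72 : ℕ) ^ (2 * n) ≤ N := by exact_mod_cast h72
    have h4 : (4 : ℕ) ^ (3 * n + 1) = 4 * 64 ^ n := by
      rw [pow_succ, pow_mul]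
      norm_num
      ring
    rw [h4]
    have h5 : (64 : ℕ) ^ n ≤ 72 ^ n := Nat.pow_le_pow_left (by norm_num) n
    have h6 : (72 : ℕ) ^ (2 * n) = 72 ^ n * 72 ^ n := by rw [two_mul, pow_add]
    have h7 : 64 ^ n * 64 ^ n ≤ 2 * X := by
      calc 64 ^ n * 64 ^ n ≤ 72 ^ n * 72 ^ n := Nat.mul_le_mul h5 h5
        _ ≤ 2 * X := by rw [← h6]; exact h3.trans hN
    have h8 : (4 * 64 ^ n) * (4 * 64 ^ n) ≤ X * X := by
      calc (4 * 64 ^ n) * (4 * 64 ^ n) = 16 * (64 ^ n * 64 ^ n) := by ring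
        _ ≤ 16 * (2 * X) := Nat.mul_le_mul_left _ h7
        _ = 32 * X := by ring
        _ ≤ X * X := Nat.mul_le_mul_right _ hX
    exact Nat.mul_self_le_mul_self_iff.1 h8

end Pool.Agent.Helper57.SM
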